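import Mathlib

/-!
# Project SN: the Jacobian criterion over a field of characteristic zero

Adapted from `Pool.Agent.TH551.HA.Jc1` (over `ℚ`); `alg_of_basis` and `exists_der` are taken from
`Pool.Agent.W602.GT.Der`.
-/

set_option autoImplicit false
set_option linter.unusedSectionVars false
set_option linter.unusedVariables false

namespace Pool.Agent.P8H78.SN

open MvPolynomial

section ext

variable {L K : Type} [Field L] [Field K] [Algebra L K]

/-- the algebra structure given by a family of elements -/
theorem alg_of_basis {ι : Type} (t : ι → K) (ht : IsTranscendenceBasis L t) :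
    letI : Algebra (MvPolynomial ι L) K :=
      ((aeval t : MvPolynomial ι L →ₐ[L] K) : MvPolynomial ι L →+* K).toAlgebra
    Algebra.IsAlgebraic (MvPolynomial ι L) K := by
  let _ : Algebra (MvPolynomial ι L) K :=
    ((aeval t : MvPolynomial ι L →ₐ[L] K) : MvPolynomial ι L →+* K).toAlgebra
  have h1 := ht.isAlgebraic
  refine Algebra.IsAlgebraic.of_ringHom_of_comp_eq
    (f := (ht.1.aevalEquiv : MvPolynomial ι L ≃ₐ[L] Algebra.adjoin L (Set.range t)))
    (g := RingHom.id K) ?_ Function.injective_id ?_
  · exact ht.1.aevalEquiv.surjective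
  · ext x
    · simp [RingHom.algebraMap_toAlgebra]
    · simp [RingHom.algebraMap_toAlgebra]

variable [CharZero L]

/-- derivations can be prescribed on a transcendence basis -/
theorem exists_der {ι : Type} (t : ι → K) (ht : IsTranscendenceBasis L t) (c : ι → K) :
    ∃ D : Derivation L K K, ∀ i, D (t i) = c i := by
  have hinj : Function.Injective (aeval t : MvPolynomial ι L →ₐ[L] K) :=
    ht.1
  have halg := alg_of_basis t ht
  let _ : Algebra (MvPolynomial ι L) K :=
    ((aeval t : MvPolynomial ι L →ₐ[L] K) : MvPolynomial ι L →+* K).toAlgebra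
  have hst : IsScalarTower L (MvPolynomial ι L) K := IsScalarTower.of_algebraMap_eq' (by
    ext c
    simp [RingHom.algebraMap_toAlgebra])
  have hfs : FaithfulSMul (MvPolynomial ι L) K := (faithfulSMul_iff_algebraMap_injective _ _).2 hinj
  let _ : Algebra (FractionRing (MvPolynomial ι L)) K := FractionRing.liftAlgebra (MvPolynomial ι L) K
  have hst2 : IsScalarTower (MvPolynomial ι L) (FractionRing (MvPolynomial ι L)) K := inferInstance
  have halg2 : Algebra.IsAlgebraic (FractionRing (MvPolynomial ι L)) K :=
    (IsFractionRing.comap_isAlgebraic_iff (A := MvPolynomial ι L)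
      (K := FractionRing (MvPolynomial ι L)) (C := K)).1 halg
  have hchar : CharZero (FractionRing (MvPolynomial ι L)) := inferInstance
  have hsep : Algebra.IsSeparable (FractionRing (MvPolynomial ι L)) K := inferInstance
  have h1 : Algebra.FormallyEtale (FractionRing (MvPolynomial ι L)) K :=
    Algebra.FormallyEtale.of_isSeparable _ _
  have h2 : Algebra.FormallyEtale (MvPolynomial ι L) (FractionRing (MvPolynomial ι L)) :=
    Algebra.FormallyEtale.of_isLocalization (nonZeroDivisors (MvPolynomial ι L))
  have h3 : Algebra.FormallyEtale (MvPolynomial ι L) K :=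
    Algebra.FormallyEtale.comp (MvPolynomial ι L) (FractionRing (MvPolynomial ι L)) K
  let e := KaehlerDifferential.tensorKaehlerEquivOfFormallyEtale L (MvPolynomial ι L) K
  let d : Derivation L (MvPolynomial ι L) K := MvPolynomial.mkDerivation L c
  let l : Ω[MvPolynomial ι L⁄L] →ₗ[MvPolynomial ι L] K := d.liftKaehlerDifferential
  let Λ : Ω[K⁄L] →ₗ[K] K := (LinearMap.liftBaseChange K l).comp e.symm.toLinearMap
  let D : Derivation L K K := Λ.compDer (KaehlerDifferential.D L K)
  refine ⟨D, fun i => ?_⟩
  have h5 : t i = algebraMap (MvPolynomial ι L) K (X i) := by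
    simp [RingHom.algebraMap_toAlgebra]
  change Λ (KaehlerDifferential.D L K (t i)) = c i
  change LinearMap.liftBaseChange K l (e.symm (KaehlerDifferential.D L K (t i))) = c i
  rw [h5, KaehlerDifferential.tensorKaehlerEquivOfFormallyEtale_symm_D_algebraMap]
  simp [l, d]

end ext


section

variable {k : Type} [Field k] [CharZero k] {K : Type} [Field K] [Algebra k K] {m : ℕ}

lemma der_mul (δ : Derivation k K K) (x y : K) : δ (x * y) = x * δ y + y * δ x := by
  rw [Derivation.leibniz, smul_eq_mul, smul_eq_mul]

/-- derivations dual to independent elements -/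
theorem exists_dual_der (y : Fin m → K) (hy : AlgebraicIndependent k y) :
    ∃ δ : Fin m → Derivation k K K, ∀ i k, δ i (y k) = if i = k then 1 else 0 := by
  classical
  obtain ⟨t, ht1, ht2⟩ := exists_isTranscendenceBasis_superset (AlgebraicIndependent.coe_range hy)
  choose δ hδ using fun i : Fin m => exists_der (fun z : t => (z : K)) ht2
    (fun z => if (z : K) = y i then 1 else 0)
  refine ⟨δ, fun i k => ?_⟩
  have h1 := hδ i ⟨y k, ht1 ⟨k, rfl⟩⟩
  simp only at h1
  rw [h1]
  by_cases h : i = k
  · subst h
    simp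
  · rw [if_neg, if_neg h]
    intro h2
    exact h (hy.injective h2).symm

/-- quotients of generic elements are independent -/
theorem algInd_of_generic (A : Fin (m + 1) → K)
    (hgen : ∀ G : MvPolynomial (Fin (m + 1)) k, (∃ e, G.IsHomogeneous e) → G ≠ 0 →
      MvPolynomial.aeval A G ≠ 0) :
    AlgebraicIndependent k (fun k : Fin m => A k.succ / A 0) := by
  classical
  have hA0 : A 0 ≠ 0 := by
    have h := hgen (X 0) ⟨1, isHomogeneous_X _ _⟩ (X_ne_zero _)
    simpa using h
  rw [algebraicIndependent_iff]
  intro p hp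
  by_contra hp0
  set D := p.totalDegree with hD
  have hle : ∀ α ∈ p.support, ∑ k, α k ≤ D := by
    intro α hα
    have h1 := MvPolynomial.le_totalDegree hα
    rwa [Finsupp.sum_fintype _ _ (by simp)] at h1
  set G : MvPolynomial (Fin (m + 1)) k := ∑ α ∈ p.support, C (coeff α p) *
    ((∏ k : Fin m, X k.succ ^ (α k)) * X 0 ^ (D - ∑ k, α k)) with hG
  have hGh : G.IsHomogeneous D := by
    refine IsHomogeneous.sum _ _ _ fun α hα => ?_
    have h1 : (C (coeff α p) * ((∏ k : Fin m, X k.succ ^ (α k)) *
        X 0 ^ (D - ∑ k, α k)) : MvPolynomial (Fin (m + 1)) k).IsHomogeneous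
        (0 + ((∑ k, 1 * α k) + 1 * (D - ∑ k, α k))) :=
      (isHomogeneous_C _ _).mul ((IsHomogeneous.prod _ _ _ fun k _ =>
        (isHomogeneous_X _ _).pow _).mul ((isHomogeneous_X _ _).pow _))
    have h2 : 0 + ((∑ k, 1 * α k) + 1 * (D - ∑ k, α k)) = D := by
      have := hle α hα
      simp only [one_mul]
      omega
    rwa [h2] at h1
  have hG0 : G ≠ 0 := by
    intro h0
    apply hp0
    have h1 := congrArg (aeval (Fin.cons 1 X : Fin (m + 1) → MvPolynomial (Fin m) k)) h0
    rw [map_zero, hG, map_sum] at h1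
    rw [← h1, p.as_sum]
    refine Finset.sum_congr (by rw [← p.as_sum]) fun α _ => ?_
    rw [← p.as_sum]
    simp only [map_mul, map_prod, map_pow, aeval_X, aeval_C, Fin.cons_succ, Fin.cons_zero,
      one_pow, mul_one]
    rw [MvPolynomial.monomial_eq, Finsupp.prod_fintype _ _ (by simp)]
    rfl
  refine hgen G ⟨D, hGh⟩ hG0 ?_
  rw [aeval_def, eval₂_eq'] at hp
  rw [hG, map_sum]
  have h1 : ∀ α ∈ p.support, aeval A (C (coeff α p) * ((∏ k : Fin m, X k.succ ^ (α k)) *
      X 0 ^ (D - ∑ k, α k))) = A 0 ^ D *
      (algebraMap k K (coeff α p) * ∏ k, (A k.succ / A 0) ^ (α k)) := by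
    intro α hα
    simp only [map_mul, map_prod, map_pow, aeval_X, aeval_C, div_pow, Finset.prod_div_distrib,
      Finset.prod_pow_eq_pow_sum]
    have h2 : A 0 ^ D = A 0 ^ (∑ k, α k) * A 0 ^ (D - ∑ k, α k) := by
      rw [← pow_add]
      congr 1
      have := hle α hα
      omega
    rw [h2]
    have h3 : A 0 ^ (∑ k, α k) ≠ 0 := pow_ne_zero _ hA0
    field_simp
  rw [Finset.sum_congr rfl h1, ← Finset.mul_sum, hp, mul_zero]

/-- the Jacobian determinant -/
theorem det_ne (A : Fin (m + 1) → K) (hA0 : A 0 ≠ 0) (δ : Fin m → Derivation k K K)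
    (h : ∀ i k : Fin m, δ i (A k.succ / A 0) = if i = k then 1 else 0) :
    (Matrix.of fun i c : Fin (m + 1) =>
      (Fin.cases (A c) (fun i => δ i (A c)) i : K)).det ≠ 0 := by
  classical
  intro h0
  obtain ⟨v, hv, hM⟩ := Matrix.exists_mulVec_eq_zero_iff.2 h0
  have h1 : ∑ c, A c * v c = 0 := by
    have := congrFun hM 0
    simpa [Matrix.mulVec, dotProduct] using this
  have h2 : ∀ i : Fin m, ∑ c, δ i (A c) * v c = 0 := by
    intro i
    have := congrFun hM i.succ
    simpa [Matrix.mulVec, dotProduct] using this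
  rw [Fin.sum_univ_succ] at h1
  have hAk : ∀ k : Fin m, A k.succ = A k.succ / A 0 * A 0 := fun k => by field_simp
  have h3 : ∀ i k : Fin m, δ i (A k.succ) = A k.succ / A 0 * δ i (A 0) +
      A 0 * (if i = k then 1 else 0) := by
    intro i k
    conv_lhs => rw [hAk k]
    rw [Derivation.leibniz, h, smul_eq_mul, smul_eq_mul]
  have h4 : ∀ i : Fin m, v i.succ = 0 := by
    intro i
    have h5 := h2 i
    rw [Fin.sum_univ_succ] at h5
    have h6 : ∑ k : Fin m, δ i (A k.succ) * v k.succ =
        δ i (A 0) / A 0 * (∑ k : Fin m, A k.succ * v k.succ) + A 0 * v i.succ := by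
      rw [Finset.mul_sum]
      have h7 : ∀ k : Fin m, δ i (A k.succ) * v k.succ =
          δ i (A 0) / A 0 * (A k.succ * v k.succ) + (if i = k then A 0 * v k.succ else 0) := by
        intro k
        rw [h3]
        by_cases hik : i = k
        · rw [if_pos hik, if_pos hik]
          field_simp
        · rw [if_neg hik, if_neg hik]
          field_simp
          ring
      rw [Finset.sum_congr rfl fun k _ => h7 k, Finset.sum_add_distrib]
      simp
    rw [h6] at h5
    have h8 : ∑ k : Fin m, A k.succ * v k.succ = -(A 0 * v 0) := by linear_combination h1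
    rw [h8] at h5
    have h9 : A 0 * v i.succ = 0 := by
      have h10 : δ i (A 0) / A 0 * -(A 0 * v 0) = -(δ i (A 0) * v 0) := by field_simp
      rw [h10] at h5
      linear_combination h5
    exact (mul_eq_zero.1 h9).resolve_left hA0
  apply hv
  funext c
  refine Fin.cases ?_ (fun c => h4 c) c
  have h5 : ∑ k : Fin m, A k.succ * v k.succ = 0 :=
    Finset.sum_eq_zero fun k _ => by rw [h4 k, mul_zero]
  rw [h5, add_zero] at h1
  exact (mul_eq_zero.1 h1).resolve_left hA0

omit [CharZero k] [Algebra k K] in
/-- choice of rows -/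
lemma det_pick {n : ℕ} {J : Type} [Fintype J] (V : Fin n → Fin n → K) (β : Fin n → J → K)
    (R : J → Fin n → K) (hV : ∀ i, V i = ∑ j, β i j • R j) (h : (Matrix.of V).det ≠ 0) :
    ∃ ρ : Fin n → J, (∀ i, β i (ρ i) ≠ 0) ∧ (Matrix.of fun i => R (ρ i)).det ≠ 0 := by
  classical
  by_contra hno
  push Not at hno
  apply h
  have h1 : (Matrix.of V).det =
      (Matrix.detRowAlternating : (Fin n → K) [⋀^Fin n]→ₗ[K] K).toMultilinearMap
        (fun i => ∑ j, β i j • R j) := by
    have : V = fun i => ∑ j, β i j • R j := funext hV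
    rw [this]
    rfl
  rw [h1, MultilinearMap.map_sum]
  refine Finset.sum_eq_zero fun ρ _ => ?_
  rw [MultilinearMap.map_smul_univ]
  by_cases hρ : ∀ i, β i (ρ i) ≠ 0
  · have h2 := hno ρ hρ
    have h3 : (Matrix.detRowAlternating : (Fin n → K) [⋀^Fin n]→ₗ[K] K).toMultilinearMap
        (fun i => R (ρ i)) = 0 := h2
    rw [h3, smul_zero]
  · push Not at hρ
    obtain ⟨i, hi⟩ := hρ
    rw [Finset.prod_eq_zero (Finset.mem_univ i) hi, zero_smul]

end


/-- the determinant with the rows `A` and `δ i A` -/
noncomputable def jac {R : Type} [CommRing R] {m : ℕ} (A : Fin (m + 1) → R) (δ : Fin m → R → R) : R :=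
  (Matrix.of fun i c : Fin (m + 1) => (Fin.cases (A c) (fun i => δ i (A c)) i : R)).det

/-- the derivative of a polynomial under a derivation of the field of fractions -/
lemma der_poly {k K : Type} [Field k] [Field K] {d : ℕ} [Algebra k K]
    [Algebra (MvPolynomial (Fin d) k) K] [IsScalarTower k (MvPolynomial (Fin d) k) K]
    (δ : Derivation k K K) (f : MvPolynomial (Fin d) k) :
    δ (algebraMap _ K f) = ∑ l, δ (algebraMap (MvPolynomial (Fin d) k) K (X l)) *
      algebraMap _ K (pderiv l f) := by
  have hC : ∀ a : k, algebraMap (MvPolynomial (Fin d) k) K (C a) = algebraMap k K a := by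
    intro a
    rw [← MvPolynomial.algebraMap_eq, ← IsScalarTower.algebraMap_apply]
  induction f using MvPolynomial.induction_on with
  | C a =>
    rw [hC, Derivation.map_algebraMap]
    symm
    apply Finset.sum_eq_zero
    intro l _
    rw [pderiv_C, map_zero, mul_zero]
  | add p q hp hq =>
    rw [map_add, map_add, hp, hq, ← Finset.sum_add_distrib]
    refine Finset.sum_congr rfl fun l _ => ?_
    rw [map_add, map_add, mul_add]
  | mul_X p n hp =>
    rw [map_mul, Derivation.leibniz, smul_eq_mul, smul_eq_mul, hp]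
    have h1 : ∀ l : Fin d, δ (algebraMap (MvPolynomial (Fin d) k) K (X l)) *
        algebraMap (MvPolynomial (Fin d) k) K (pderiv l (p * X n)) =
        (if l = n then algebraMap (MvPolynomial (Fin d) k) K p *
          δ (algebraMap (MvPolynomial (Fin d) k) K (X n)) else 0) +
        algebraMap (MvPolynomial (Fin d) k) K (X n) *
          (δ (algebraMap (MvPolynomial (Fin d) k) K (X l)) *
          algebraMap (MvPolynomial (Fin d) k) K (pderiv l p)) := by
      intro l
      rw [Derivation.leibniz, smul_eq_mul, smul_eq_mul, pderiv_X, Pi.single_apply]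
      by_cases h : l = n
      · subst h
        rw [if_pos rfl, if_pos rfl, mul_one, map_add, map_mul]
        ring
      · rw [if_neg h, if_neg (fun hh => h hh.symm), mul_zero, zero_add, zero_add, map_mul]
        ring
    rw [Finset.sum_congr rfl (fun l (_ : l ∈ Finset.univ) => h1 l), Finset.sum_add_distrib, Finset.sum_ite_eq' Finset.univ n,
      if_pos (Finset.mem_univ n), ← Finset.mul_sum]

/-- JAC -/
theorem jac_main (k : Type) [Field k] [CharZero k] (d m : ℕ)
    (A : Fin (m + 1) → MvPolynomial (Fin d) k)
    (hA : ∀ G : MvPolynomial (Fin (m + 1)) k, (∃ e, G.IsHomogeneous e) → G ≠ 0 → aeval A G ≠ 0) :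
    ∃ κ : Fin m → Fin d, jac A (fun i => pderiv (κ i)) ≠ 0 := by
  classical
  let K := FractionRing (MvPolynomial (Fin d) k)
  let φ : MvPolynomial (Fin d) k →ₐ[k] K := IsScalarTower.toAlgHom k (MvPolynomial (Fin d) k) K
  have hφ : Function.Injective φ := IsFractionRing.injective (MvPolynomial (Fin d) k) K
  set B : Fin (m + 1) → K := fun c => φ (A c) with hB
  have hgen : ∀ G : MvPolynomial (Fin (m + 1)) k, (∃ e, G.IsHomogeneous e) → G ≠ 0 →
      aeval B G ≠ 0 := by
    intro G h1 h2 h3
    apply hA G h1 h2
    apply hφ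
    rw [map_zero, ← h3]
    have : aeval B G = φ (aeval A G) := by
      have := MvPolynomial.comp_aeval_apply (f := A) φ G
      exact this.symm
    exact this.symm
  have hB0 : B 0 ≠ 0 := by
    have h := hgen (X 0) ⟨1, isHomogeneous_X _ _⟩ (X_ne_zero _)
    simpa using h
  obtain ⟨δ, hδ⟩ := exists_dual_der (k := k) (K := K) (fun k : Fin m => B k.succ / B 0)
    (algInd_of_generic B hgen)
  have hdet := det_ne B hB0 δ hδ
  obtain ⟨ρ, hρ1, hρ2⟩ := det_pick (J := Option (Fin d))
    (fun i c : Fin (m + 1) => (Fin.cases (B c) (fun i => δ i (B c)) i : K))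
    (fun i j => Fin.cases (motive := fun _ => K) (match j with
      | none => 1
      | some _ => 0) (fun i => match j with
      | none => 0
      | some l => δ i (φ (X l))) i)
    (fun j c => match j with
      | none => B c
      | some l => φ (pderiv l (A c)))
    (fun i => by
      funext c
      rw [Finset.sum_apply, Fintype.sum_option]
      refine Fin.cases ?_ (fun i => ?_) i
      · simp
      · simp only [Fin.cases_succ, Pi.smul_apply, smul_eq_mul, zero_mul, zero_add]
        exact der_poly (δ i) (A c))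
    hdet
  have h0 : ρ 0 = none := by
    have h := hρ1 0
    rcases hr : ρ 0 with _ | l
    · rfl
    · rw [hr] at h
      exact absurd rfl h
  have hs : ∀ i : Fin m, ∃ l, ρ i.succ = some l := by
    intro i
    have h := hρ1 i.succ
    rcases hr : ρ i.succ with _ | l
    · rw [hr] at h
      exact absurd rfl h
    · exact ⟨l, rfl⟩
  choose κ hκ using hs
  refine ⟨κ, fun hj => hρ2 ?_⟩
  have h1 := congrArg φ hj
  rw [map_zero, jac, AlgHom.map_det] at h1
  rw [← h1]
  congr 1
  ext i c
  refine Fin.cases ?_ (fun i => ?_) i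
  · simp only [Matrix.of_apply, AlgHom.mapMatrix_apply, Matrix.map_apply, Fin.cases_zero]
    rw [h0]
  · simp only [Matrix.of_apply, AlgHom.mapMatrix_apply, Matrix.map_apply, Fin.cases_succ]
    rw [hκ i]

end Pool.Agent.P8H78.SN
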