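import Pool.Agent.P8H78.SN.Jac
import Pool.Agent.P8H9.SN.Stm

/-!
# Project SN: JAC
-/

set_option autoImplicit false

namespace Pool.Agent.P8H78.SN

/-- JAC: the Jacobian criterion -/
theorem t_JAC : Pool.Agent.P8H9.SN.S_JAC :=
  fun k _ _ d m A hA => jac_main k d m A hA

end Pool.Agent.P8H78.SN
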